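import Mathlib
import Pool.Agent.Helper53.GG.Main

/-!
# Primes of small order and the integers `2 ^ a + 2 ^ b + 1`

Let `p` be an odd prime and `n` the order of `2` modulo `p`.

* If `n` is divisible by `2` or by `3`, then `p` divides an integer `2 ^ a + 2 ^ b + 1`.
* If `n` is prime to `6` and `p` divides an integer `2 ^ a + 2 ^ b + 1`, then
  `p ≤ 6 ^ (N ^ 2) 2 ^ (2 n / N)` for every `N ≥ 1`. With `N` the cube root of `n` this is
  `log p ≤ C n ^ (2 / 3)`.

So for the primes `p` with `log p > C n ^ (2 / 3)` the question is decided: such a prime divides an integer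
`2 ^ a + 2 ^ b + 1` if and only if `n` is not prime to `6`. It follows that for `n` prime to `6` the number
`2 ^ n - 1` has a prime divisor which divides no integer `2 ^ a + 2 ^ b + 1`, if its number of prime factors is
smaller than `n ^ (1 / 3) / 5`.

Proof. Let `p` divide `2 ^ a + 2 ^ b + 1`. By Dirichlet's theorem there is `q ≤ N ^ 2` such that `q a` and `q b` are
near to multiples `n α`, `n β` of `n`. The product of the numbers
`1 + 2 ^ a ξ ^ α + 2 ^ b ξ ^ β` over the complex numbers `ξ` with `ξ ^ q = 2 ^ (- n)` is up to a power of two a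
small integer divisible by `p`. No factor is zero: if it were, two of the three monomials would have the same
absolute value, because they are algebraic integers after division by the smallest one; their quotient would be a
root of unity `ε` of order prime to `6`, so `1 + ε` would be a unit or `2`, and the third monomial would be a
unit or `- 2`, which is impossible.
-/

set_option autoImplicit false

namespace Pool.Agent.Results.MP_33899d_nt.SmallOrders

open Pool.Agent.Helper53.GG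

/-- `p` divides an integer `2 ^ a + 2 ^ b + 1` with positive exponents -/
def T2 (p : ℕ) : Prop := ∃ a b : ℕ, 1 ≤ a ∧ 1 ≤ b ∧ p ∣ 2 ^ a + 2 ^ b + 1

lemma two_ne_zero_zmod {p : ℕ} (hp : p.Prime) (hodd : p ≠ 2) : (2 : ZMod p) ≠ 0 := by
  have hfact : Fact p.Prime := ⟨hp⟩
  intro h
  have h1 : ((2 : ℕ) : ZMod p) = 0 := by exact_mod_cast h
  rw [ZMod.natCast_eq_zero_iff] at h1
  have := (Nat.prime_dvd_prime_iff_eq hp Nat.prime_two).1 h1
  exact hodd this

lemma order_pos {p : ℕ} (hp : p.Prime) (hodd : p ≠ 2) : 1 ≤ orderOf (2 : ZMod p) := by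
  have hfact : Fact p.Prime := ⟨hp⟩
  have h1 := ZMod.pow_card_sub_one_eq_one (two_ne_zero_zmod hp hodd)
  have h2 := hp.two_le
  exact orderOf_pos_iff.2 (isOfFinOrder_iff_pow_eq_one.2 ⟨p - 1, by omega, h1⟩)

/-- even orders -/
lemma even_order {p : ℕ} (hp : p.Prime) (hodd : p ≠ 2) (h : 2 ∣ orderOf (2 : ZMod p)) : T2 p := by
  have hfact : Fact p.Prime := ⟨hp⟩
  have hpos := order_pos hp hodd
  obtain ⟨m, hm⟩ := h
  have h1 : ((2 : ZMod p) ^ m) ^ 2 = 1 := by
    rw [← pow_mul, mul_comm, ← hm, pow_orderOf_eq_one]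
  have h2 : (2 : ZMod p) ^ m ≠ 1 := by
    intro h3
    have h4 := Nat.le_of_dvd (by omega) (orderOf_dvd_of_pow_eq_one h3)
    omega
  have h3 : (2 : ZMod p) ^ m = -1 := by
    rcases sq_eq_one_iff.1 h1 with h | h
    · exact absurd h h2
    · exact h
  refine ⟨m + 1, 2 * m, by omega, by omega, ?_⟩
  rw [← ZMod.natCast_eq_zero_iff]
  push_cast
  rw [pow_succ, h3, mul_comm 2 m, pow_mul, h3]
  ring

/-- orders divisible by three -/
lemma three_order {p : ℕ} (hp : p.Prime) (hodd : p ≠ 2) (h : 3 ∣ orderOf (2 : ZMod p)) : T2 p := by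
  have hfact : Fact p.Prime := ⟨hp⟩
  have hpos := order_pos hp hodd
  obtain ⟨m, hm⟩ := h
  have h1 : ((2 : ZMod p) ^ m) ^ 3 = 1 := by
    rw [← pow_mul, mul_comm, ← hm, pow_orderOf_eq_one]
  have h2 : (2 : ZMod p) ^ m ≠ 1 := by
    intro h3
    have h4 := Nat.le_of_dvd (by omega) (orderOf_dvd_of_pow_eq_one h3)
    omega
  refine ⟨m, 2 * m, by omega, by omega, ?_⟩
  rw [← ZMod.natCast_eq_zero_iff]
  push_cast
  have h3 : ((2 : ZMod p) ^ m - 1) * ((2 : ZMod p) ^ m + 2 ^ (2 * m) + 1) = 0 := by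
    rw [mul_comm 2 m, pow_mul]
    linear_combination h1
  exact (mul_eq_zero.1 h3).resolve_left (sub_ne_zero.2 h2)

lemma not_dvd_of_coprime {d : ℕ} (h : Nat.Coprime d 6) : ¬ 2 ∣ d ∧ ¬ 3 ∣ d := by
  constructor
  · intro h2
    have := Nat.dvd_gcd h2 (by norm_num : 2 ∣ 6)
    rw [h] at this
    norm_num at this
  · intro h2
    have := Nat.dvd_gcd h2 (by norm_num : 3 ∣ 6)
    rw [h] at this
    norm_num at this

lemma dvd_of_not_coprime {d : ℕ} (h : ¬ Nat.Coprime d 6) : 2 ∣ d ∨ 3 ∣ d := by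
  by_contra hc
  push Not at hc
  apply h
  have h2 : Nat.Coprime d 2 := ((Nat.Prime.coprime_iff_not_dvd Nat.prime_two).2 hc.1).symm
  have h3 : Nat.Coprime d 3 := ((Nat.Prime.coprime_iff_not_dvd Nat.prime_three).2 hc.2).symm
  exact Nat.Coprime.mul_right h2 h3

theorem upper {p N : ℕ} (hp : p.Prime) (hodd : p ≠ 2) (hN : 1 ≤ N)
    (hcop : Nat.Coprime (orderOf (2 : ZMod p)) 6) (hT : T2 p) :
    p ≤ 6 ^ (N ^ 2) * 2 ^ (2 * orderOf (2 : ZMod p) / N) := by
  obtain ⟨a, b, -, -, hab⟩ := hT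
  obtain ⟨h2, h3⟩ := not_dvd_of_coprime hcop
  exact bound_prime hp hN hodd h2 h3 hab

theorem upper' {p N : ℕ} (hp : p.Prime) (hodd : p ≠ 2)
    (hcop : Nat.Coprime (orderOf (2 : ZMod p)) 6) (hle : orderOf (2 : ZMod p) ≤ N ^ 3) (hT : T2 p) :
    p ≤ 24 ^ (N ^ 2) := by
  have hpos := order_pos hp hodd
  have hN : 1 ≤ N := by
    rcases Nat.eq_zero_or_pos N with h | h
    · rw [h] at hle; omega
    · exact h
  refine (upper hp hodd hN hcop hT).trans ?_
  have h1 : 2 * orderOf (2 : ZMod p) / N ≤ 2 * N ^ 2 := by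
    apply Nat.div_le_of_le_mul
    calc 2 * orderOf (2 : ZMod p) ≤ 2 * N ^ 3 := by omega
      _ = N * (2 * N ^ 2) := by ring
  calc 6 ^ (N ^ 2) * 2 ^ (2 * orderOf (2 : ZMod p) / N) ≤ 6 ^ (N ^ 2) * 2 ^ (2 * N ^ 2) :=
        Nat.mul_le_mul_left _ (Nat.pow_le_pow_right (by norm_num) h1)
    _ = 24 ^ (N ^ 2) := by
        rw [pow_mul, ← mul_pow]
        norm_num

theorem few_factors {n N : ℕ} (hn : 2 ≤ n) (hcop : Nat.Coprime n 6) (hle : n ≤ N ^ 3)
    (hΩ : 5 * N ^ 2 * ArithmeticFunction.cardFactors (2 ^ n - 1) < n) :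
    ∃ p : ℕ, p.Prime ∧ p ∣ 2 ^ n - 1 ∧ 24 ^ (N ^ 2) < p ∧ ¬ T2 p := by
  have hbig : ∃ p : ℕ, p.Prime ∧ p ∣ 2 ^ n - 1 ∧ 24 ^ (N ^ 2) < p := by
    by_contra hcon
    push Not at hcon
    have h0 : 2 ^ n - 1 ≠ 0 := by
      have : 2 ^ 2 ≤ 2 ^ n := Nat.pow_le_pow_right (by norm_num) hn
      omega
    have h1 : (2 ^ n - 1).primeFactorsList.prod ≤
        (24 ^ (N ^ 2)) ^ (2 ^ n - 1).primeFactorsList.length := by
      apply List.prod_le_pow_card
      intro p hp
      exact hcon p (Nat.prime_of_mem_primeFactorsList hp) (Nat.dvd_of_mem_primeFactorsList hp)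
    rw [Nat.prod_primeFactorsList h0, ← ArithmeticFunction.cardFactors_apply, ← pow_mul] at h1
    have h2 : 24 ^ (N ^ 2 * ArithmeticFunction.cardFactors (2 ^ n - 1)) ≤ 2 ^ (n - 1) := by
      calc 24 ^ (N ^ 2 * ArithmeticFunction.cardFactors (2 ^ n - 1))
          ≤ (2 ^ 5) ^ (N ^ 2 * ArithmeticFunction.cardFactors (2 ^ n - 1)) :=
            Nat.pow_le_pow_left (by norm_num) _
        _ = 2 ^ (5 * N ^ 2 * ArithmeticFunction.cardFactors (2 ^ n - 1)) := by
            rw [← pow_mul]; congr 1; ring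
        _ ≤ 2 ^ (n - 1) := Nat.pow_le_pow_right (by norm_num) (by omega)
    have h3 : 2 ^ n = 2 * 2 ^ (n - 1) := by
      rw [← pow_succ']; congr 1; omega
    have h4 : 2 ^ 1 ≤ 2 ^ (n - 1) := Nat.pow_le_pow_right (by norm_num) (by omega)
    omega
  obtain ⟨p, hp, hpd, hlt⟩ := hbig
  refine ⟨p, hp, hpd, hlt, ?_⟩
  intro hT
  have hpodd : p ≠ 2 := by
    intro h
    rw [h] at hpd
    have h1 : 2 ∣ 2 ^ n := dvd_pow_self 2 (by omega)
    have h2 : 1 ≤ 2 ^ n := Nat.one_le_two_pow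
    omega
  have hord : orderOf (2 : ZMod p) ∣ n := by
    apply orderOf_dvd_of_pow_eq_one
    have h1 : ((2 ^ n - 1 : ℕ) : ZMod p) = 0 := (ZMod.natCast_eq_zero_iff _ _).2 hpd
    rw [Nat.cast_sub Nat.one_le_two_pow] at h1
    push_cast at h1
    exact sub_eq_zero.1 h1
  have h1 := upper' hp hpodd (Nat.Coprime.coprime_dvd_left hord hcop)
    ((Nat.le_of_dvd (by omega) hord).trans hle) hT
  omega

theorem result :
    -- primes of an order which is not prime to six
    (∀ p : ℕ, p.Prime → p ≠ 2 → ¬ Nat.Coprime (orderOf (2 : ZMod p)) 6 → T2 p) ∧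
    -- primes of an order prime to six
    (∀ p N : ℕ, p.Prime → p ≠ 2 → 1 ≤ N → Nat.Coprime (orderOf (2 : ZMod p)) 6 → T2 p →
      p ≤ 6 ^ (N ^ 2) * 2 ^ (2 * orderOf (2 : ZMod p) / N)) ∧
    -- the classification of the primes with a small order
    (∀ p N : ℕ, p.Prime → p ≠ 2 → orderOf (2 : ZMod p) ≤ N ^ 3 → 24 ^ (N ^ 2) < p →
      (¬ T2 p ↔ Nat.Coprime (orderOf (2 : ZMod p)) 6)) ∧
    -- numbers `2 ^ n - 1` with few prime factors
    (∀ n N : ℕ, 2 ≤ n → Nat.Coprime n 6 → n ≤ N ^ 3 →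
      5 * N ^ 2 * ArithmeticFunction.cardFactors (2 ^ n - 1) < n →
      ∃ p : ℕ, p.Prime ∧ p ∣ 2 ^ n - 1 ∧ 24 ^ (N ^ 2) < p ∧ ¬ T2 p) ∧
    ({n : ℕ | Nat.Coprime n 6 ∧ ∃ N : ℕ, n ≤ N ^ 3 ∧
        5 * N ^ 2 * ArithmeticFunction.cardFactors (2 ^ n - 1) < n}.Infinite →
      {p : ℕ | p.Prime ∧ ¬ T2 p}.Infinite) := by
  refine ⟨?_, ?_, ?_, ?_, ?_⟩
  · intro p hp hodd hcop
    rcases dvd_of_not_coprime hcop with h | h
    · exact even_order hp hodd h
    · exact three_order hp hodd h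
  · intro p N hp hodd hN hcop hT
    exact upper hp hodd hN hcop hT
  · intro p N hp hodd hle hlt
    constructor
    · intro hT
      by_contra hcop
      apply hT
      rcases dvd_of_not_coprime hcop with h | h
      · exact even_order hp hodd h
      · exact three_order hp hodd h
    · intro hcop hT
      have := upper' hp hodd hcop hle hT
      omega
  · intro n N hn hcop hle hΩ
    exact few_factors hn hcop hle hΩ
  · intro hinf
    apply Set.infinite_of_not_bddAbove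
    rintro ⟨B, hB⟩
    obtain ⟨n, ⟨hcop, N, hle, hΩ⟩, hnB⟩ := hinf.exists_gt (B ^ 3 + 2)
    obtain ⟨p, hp, -, hlt, hT⟩ := few_factors (by omega) hcop hle hΩ
    have h1 : p ≤ B := hB ⟨hp, hT⟩
    have h2 : B < N := by
      by_contra h
      push Not at h
      have := Nat.pow_le_pow_left h 3
      omega
    have h3 : N ^ 2 < 24 ^ (N ^ 2) := Nat.lt_pow_self (by norm_num)
    have h4 : N ≤ N ^ 2 := by nlinarith
    omega

end Pool.Agent.Results.MP_33899d_nt.SmallOrders
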